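import Mathlib
import Pool.Agent.H30.PI.Fin

set_option autoImplicit false

namespace Pool.Agent.H64.Kept.PolynomialIdentity

universe u

/-- For all `d`, `m` there is a bound for the order of the finite rational 2-groups `G` with `d` generators
which embed into a ring `B` in which a multilinear identity of degree `m`, with integer coefficients and
the coefficient 1 at one monomial, holds for the elements of `G`. -/
theorem result (d m : ℕ) :
    ∃ N : ℕ, ∀ (G : Type) [Group G] [Finite G],
      IsPGroup 2 G →
      (∀ x y : G, Subgroup.zpowers x = Subgroup.zpowers y → IsConj x y) →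
      (∃ S : Finset G, S.card ≤ d ∧ Subgroup.closure (S : Set G) = ⊤) →
      ∀ (B : Type u) [Ring B] (φ : G →* B), Function.Injective φ →
      (∃ a : Equiv.Perm (Fin m) → ℤ, a 1 = 1 ∧
        ∀ y : Fin m → G, ∑ σ, a σ • (List.ofFn fun i => φ (y (σ i))).prod = 0) →
      Nat.card G ≤ N := by
  obtain ⟨N, hN⟩ := Pool.Agent.H30.PI.bound.{u} d m
  refine ⟨N, fun G _ _ hp hrat hS B _ φ hinj hid => hN G hp ?_ hS B φ hinj hid⟩
  intro x
  apply hrat
  have hcop : Nat.Coprime 3 (orderOf x) := by
    obtain ⟨k, hk⟩ := IsPGroup.iff_orderOf.mp hp x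
    rw [hk]
    exact Nat.Coprime.pow_right k (by norm_num)
  obtain ⟨k, hk⟩ := exists_pow_eq_self_of_coprime hcop
  apply le_antisymm
  · rw [Subgroup.zpowers_le]
    have h1 : (x ^ 3) ^ k ∈ Subgroup.zpowers (x ^ 3) := Subgroup.npow_mem_zpowers _ _
    rwa [hk] at h1
  · rw [Subgroup.zpowers_le]
    exact Subgroup.npow_mem_zpowers _ _

end Pool.Agent.H64.Kept.PolynomialIdentity
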