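import Mathlib
import Pool.Agent.H50.RatTwo

set_option autoImplicit false

namespace Pool.Agent.H64.Kept.SolvableRankCase

/-- For all `d`, `r`, `k` there is a bound for the order of the finite rational `d`-generated
2-groups having a normal series of length `k` in which every factor is abelian or has all its
subgroups generated by at most `r` elements. -/
theorem result (d r k : ℕ) :
    ∃ B : ℕ, ∀ (G : Type) [Group G] [Finite G],
      IsPGroup 2 G →
      (∃ s : Finset G, s.card ≤ d ∧ Subgroup.closure (s : Set G) = ⊤) →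
      (∀ x y : G, Subgroup.zpowers x = Subgroup.zpowers y → IsConj x y) →
      (∃ N : ℕ → Subgroup G, N 0 = ⊥ ∧ N k = ⊤ ∧
        ∀ i < k, (N i).Normal ∧ N i ≤ N (i + 1) ∧
          (⁅N (i + 1), N (i + 1)⁆ ≤ N i ∨
            ∀ L : Subgroup G, N i ≤ L → L ≤ N (i + 1) →
              ∃ s : Finset G, s.card ≤ r ∧ L = N i ⊔ Subgroup.closure (s : Set G))) →
      Nat.card G ≤ B := by
  refine ⟨Pool.Agent.H50.RatTwo.bound d r k, ?_⟩
  intro G _ _ hp hgen hrat hser
  refine Pool.Agent.H50.RatTwo.series_bound d r k G hp hgen ?_ hser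
  intro x
  apply hrat
  have hcop : Nat.Coprime 3 (orderOf x) := by
    obtain ⟨n, hn⟩ := IsPGroup.iff_orderOf.mp hp x
    rw [hn]
    exact Nat.Coprime.pow_right n (by norm_num)
  obtain ⟨m, hm⟩ := exists_pow_eq_self_of_coprime hcop
  apply le_antisymm
  · rw [Subgroup.zpowers_le]
    have h1 : (x ^ 3) ^ m ∈ Subgroup.zpowers (x ^ 3) := Subgroup.npow_mem_zpowers _ _
    rwa [hm] at h1
  · rw [Subgroup.zpowers_le]
    exact Subgroup.npow_mem_zpowers _ _

end Pool.Agent.H64.Kept.SolvableRankCase
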